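import Mathlib
import Pool.Agent.H359R3.MX12

/-!
# MP_4abfef_an, Q1 (positive answer)

For every `k` and every automorphism `T` in `Mix(k)` of a nonatomic standard probability space, a
typical extension of `T` (in the Halmos topology) belongs to `Mix(k)`.
-/

open MeasureTheory Set Filter Topology
open scoped ENNReal symmDiff

namespace Pool.Agent.Results.MP_4abfef_an.TypicalMultipleMixing

/-- Invertible bimeasurable `m`-preserving maps of `Z` onto itself (representatives). -/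
def PreAut {Z : Type*} [MeasurableSpace Z] (m : Measure Z) : Type _ :=
  {S : Z ≃ᵐ Z // MeasurePreserving S m m}

/-- Equality modulo null sets. -/
def aeEq {Z : Type*} [MeasurableSpace Z] (m : Measure Z) : Setoid (PreAut m) where
  r := fun S S' => ∀ᵐ z ∂m, S.1 z = S'.1 z
  iseqv :=
    { refl := fun S => Eventually.of_forall (fun _ => rfl)
      symm := fun {S S'} h => h.mono (fun _ hz => hz.symm)
      trans := fun {S S' S''} h h' => by
        filter_upwards [h, h'] with z h1 h2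
        exact h1.trans h2 }

/-- The group `Aut(Z, m)` of automorphisms modulo null sets. -/
def Aut {Z : Type*} [MeasurableSpace Z] (m : Measure Z) : Type _ := Quotient (aeEq m)

/-- The class of a representative. -/
def cls {Z : Type*} [MeasurableSpace Z] {m : Measure Z} (S : PreAut m) : Aut m := Quotient.mk (aeEq m) S

/-- The classes of the `S'` with `m(S'A Δ SA) < ε`. -/
def ball {Z : Type*} [MeasurableSpace Z] (m : Measure Z) (S : PreAut m) (A : Set Z) (ε : ℝ) : Set (Aut m) :=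
  {q | ∃ S' : PreAut m, cls S' = q ∧ m.real ((S'.1 '' A) ∆ (S.1 '' A)) < ε}

/-- The Halmos (weak) topology of `Aut(Z, m)`. -/
instance halmos {Z : Type*} [MeasurableSpace Z] (m : Measure Z) : TopologicalSpace (Aut m) :=
  TopologicalSpace.generateFrom
    {U | ∃ (S : PreAut m) (A : Set Z) (ε : ℝ), MeasurableSet A ∧ 0 < ε ∧ U = ball m S A ε}

/-- `m_1 + ⋯ + m_j`, for `j = 0, …, k`. -/
def expo {k : ℕ} (n : Fin k → ℕ) (j : Fin (k + 1)) : ℕ := ∑ i : Fin k, if (i : ℕ) < (j : ℕ) then n i else 0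

/-- `Mix(k)`: `m(A_0 ∩ ⋂_{j=1}^k S^{m_1+⋯+m_j} A_j) → ∏ m(A_j)` as `m_1, …, m_k → ∞`. -/
def IsMix {Z : Type*} [MeasurableSpace Z] (k : ℕ) (m : Measure Z) (S : PreAut m) : Prop :=
  ∀ A : Fin (k + 1) → Set Z, (∀ j, MeasurableSet (A j)) →
    Tendsto (fun n : Fin k → ℕ => m.real (⋂ j, ((S.1 : Z → Z)^[expo n j]) '' A j)) atTop
      (𝓝 (∏ j, m.real (A j)))

/-- The classes in `Mix(k)`. -/
def MixClass {Z : Type*} [MeasurableSpace Z] (k : ℕ) (m : Measure Z) : Set (Aut m) :=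
  {q | ∀ S : PreAut m, cls S = q → IsMix k m S}

/-- `ℰ(T)`: the classes of the automorphisms `(x,y) ↦ (Tx, Φ_x(y))`, `x ↦ Φ_x` a measurable family
of automorphisms of `(Y, ν)`. -/
def Ext {X Y : Type*} [MeasurableSpace X] [MeasurableSpace Y] (μ : Measure X) (ν : Measure Y)
    (T : PreAut μ) : Set (Aut (μ.prod ν)) :=
  {q | ∃ S : PreAut (μ.prod ν), cls S = q ∧ ∃ Φ : X → PreAut ν,
    Measurable (fun z : X × Y => (Φ z.1).1 z.2) ∧
    ∀ᵐ z ∂(μ.prod ν), S.1 z = (T.1 z.1, (Φ z.1).1 z.2)}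

/-! ### proof -/

open Pool.H359R3.MX

theorem cls_eq {Z : Type*} [MeasurableSpace Z] {m : Measure Z} {S S' : PreAut m} (h : cls S = cls S') :
    ∀ᵐ z ∂m, S.1 z = S'.1 z := Quotient.exact h

theorem diff_cls {Z : Type*} [MeasurableSpace Z] {m : Measure Z} {S S' : PreAut m} (h : cls S = cls S')
    (A B : Set Z) : m.real ((S.1 '' A) ∆ B) = m.real ((S'.1 '' A) ∆ B) := by
  apply measureReal_congr
  exact (img_ae m S.1 S'.1 S.2 (cls_eq h) A).symmDiff (ae_eq_refl B)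

theorem isMix_iff {Z : Type*} [MeasurableSpace Z] (k : ℕ) (m : Measure Z) (S : PreAut m) :
    IsMix k m S ↔ MixS false k m S.1 := by
  unfold IsMix MixS
  simp_rw [img_iter]
  rfl

theorem mem_ball_iff {Z : Type*} [MeasurableSpace Z] (m : Measure Z) (S S' : PreAut m) (A : Set Z) (ε : ℝ) :
    cls S' ∈ ball m S A ε ↔ m.real ((S'.1 '' A) ∆ (S.1 '' A)) < ε := by
  constructor
  · rintro ⟨S'', h1, h2⟩
    rw [← diff_cls h1]
    exact h2
  · intro h
    exact ⟨S', rfl, h⟩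

theorem nbhd {Z : Type*} [MeasurableSpace Z] (m : Measure Z) [IsProbabilityMeasure m] (O : Set (Aut m))
    (hO : IsOpen O) : ∀ S : PreAut m, cls S ∈ O → ∃ J : Finset (Set Z), (∀ A ∈ J, MeasurableSet A) ∧
      ∃ ε : ℝ, 0 < ε ∧ ∀ S' : PreAut m, (∀ A ∈ J, m.real ((S'.1 '' A) ∆ (S.1 '' A)) < ε) → cls S' ∈ O := by
  classical
  have hO' : TopologicalSpace.GenerateOpen
    {U | ∃ (S : PreAut m) (A : Set Z) (ε : ℝ), MeasurableSet A ∧ 0 < ε ∧ U = ball m S A ε} O := hO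
  induction hO' with
  | basic U hU =>
    obtain ⟨S0, A, ε, hA, hε, rfl⟩ := hU
    intro S hS
    rw [mem_ball_iff] at hS
    refine ⟨{A}, fun B hB => by rw [Finset.mem_singleton] at hB; rw [hB]; exact hA,
      ε - m.real ((S.1 '' A) ∆ (S0.1 '' A)), by linarith, fun S' hS' => ?_⟩
    rw [mem_ball_iff]
    have h1 := hS' A (Finset.mem_singleton_self A)
    have h2 := diff_tri m (S'.1 '' A) (S.1 '' A) (S0.1 '' A)
    linarith
  | univ =>
    intro S _
    exact ⟨∅, by simp, 1, one_pos, fun _ _ => mem_univ _⟩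
  | inter U V hU hV ihU ihV =>
    intro S hS
    obtain ⟨J1, hJ1, ε1, hε1, h1⟩ := ihU hU S hS.1
    obtain ⟨J2, hJ2, ε2, hε2, h2⟩ := ihV hV S hS.2
    refine ⟨J1 ∪ J2, fun A hA => ?_, min ε1 ε2, lt_min hε1 hε2, fun S' hS' => ⟨h1 S' ?_, h2 S' ?_⟩⟩
    · rcases Finset.mem_union.1 hA with h | h
      · exact hJ1 A h
      · exact hJ2 A h
    · exact fun A hA => lt_of_lt_of_le (hS' A (Finset.mem_union_left _ hA)) (min_le_left _ _)
    · exact fun A hA => lt_of_lt_of_le (hS' A (Finset.mem_union_right _ hA)) (min_le_right _ _)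
  | sUnion W hW ihW =>
    intro S hS
    obtain ⟨U, hU, hSU⟩ := hS
    obtain ⟨J, hJ, ε, hε, h⟩ := ihW U hU (hW U hU) S hSU
    exact ⟨J, hJ, ε, hε, fun S' hS' => ⟨U, hU, h S' hS'⟩⟩

theorem ext_isExt {X Y : Type*} [MeasurableSpace X] [MeasurableSpace Y] (μ : Measure X) (ν : Measure Y)
    (T : PreAut μ) (S : PreAut (μ.prod ν)) (h : cls S ∈ Ext μ ν T) : IsExt μ ν T.1 S.1 := by
  obtain ⟨S', h1, Φ, _, h2⟩ := h
  refine ⟨S.2, ?_⟩
  filter_upwards [cls_eq h1, h2] with z h3 h4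
  rw [← h3, h4]

theorem skew_mem {X Y : Type*} [MeasurableSpace X] [MeasurableSpace Y] (μ : Measure X) (ν : Measure Y)
    (T : PreAut μ) (S : PreAut (μ.prod ν)) (h : IsSkew ν T.1 S.1) : cls S ∈ Ext μ ν T := by
  obtain ⟨Φ, h1, h2, h3⟩ := h
  exact ⟨S, rfl, fun x => ⟨Φ x, h1 x⟩, h2, Eventually.of_forall h3⟩

/-- **Theorem.** Let `(X, μ)`, `(Y, ν)` be nonatomic standard probability spaces, `k ≥ 1` and
`T ∈ Mix(k)` an automorphism of `(X, μ)`. Then the set of extensions of `T` that belong to `Mix(k)`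
is comeager in `ℰ(T)` with the Halmos topology. -/
theorem result {X Y : Type*} [MeasurableSpace X] [StandardBorelSpace X] [MeasurableSpace Y]
    [StandardBorelSpace Y] (μ : Measure X) [IsProbabilityMeasure μ] [NullSingletonClass μ]
    (ν : Measure Y) [IsProbabilityMeasure ν] [NullSingletonClass ν] (k : ℕ) (hk : 1 ≤ k)
    (T : PreAut μ) (hT : IsMix k μ T) :
    {S : Ext μ ν T | S.1 ∈ MixClass k (μ.prod ν)} ∈ residual (Ext μ ν T) := by
  classical
  have hCD := CD_gen μ ν T.1 T.2 false k hk ((isMix_iff k μ T).1 hT)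
  obtain ⟨D, hDm, hDd⟩ := exists_D (μ.prod ν)
  let P : (Fin (k + 1) → ℕ) × ℕ → Set (Ext μ ν T) := fun i =>
    {e | ∃ n0 : Fin k → ℕ, ∀ S : PreAut (μ.prod ν), cls S = e.1 → ∀ n ≥ n0,
      |(μ.prod ν).real (⋂ j, ((pw false S.1 : X × Y → X × Y)^[ps n j]) ⁻¹' D (i.1 j)) -
        ∏ j, (μ.prod ν).real (D (i.1 j))| ≤ 1 / ((i.2 : ℝ) + 1)}
  have hsub : (⋂ i, P i) ⊆ {S : Ext μ ν T | S.1 ∈ MixClass k (μ.prod ν)} := by
    intro e he S hS
    rw [isMix_iff]
    refine mix_of_dense (μ.prod ν) S.1 S.2 false k D hDm hDd (fun f p => ?_)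
    obtain ⟨n0, hn0⟩ := mem_iInter.1 he (f, p)
    exact ⟨n0, hn0 S hS⟩
  refine Filter.mem_of_superset (residual_of P ?_) hsub
  rintro ⟨f, p⟩ O hO ⟨e, he⟩
  obtain ⟨O', hO', rfl⟩ := isOpen_induced_iff.1 hO
  obtain ⟨S, hS⟩ := Quotient.exists_rep e.1
  have hSe : cls S = e.1 := hS
  have hSO : cls S ∈ O' := by rw [hSe]; exact he
  obtain ⟨J, hJ, ε, hε, hJO⟩ := nbhd (μ.prod ν) O' hO' S hSO
  have hSext : IsExt μ ν T.1 S.1 := ext_isExt μ ν T S (by rw [hSe]; exact e.2)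
  let A : Fin J.card → Set (X × Y) := fun i => (J.equivFin.symm i).1
  have hA : ∀ i, MeasurableSet (A i) := fun i => hJ _ (J.equivFin.symm i).2
  obtain ⟨S0, hS0, hskew, hclose, J', hJ'f, hJ'm, δ', hδ', n0, hopen⟩ := hCD S.1 hSext J.card
    (fun i => S.1 '' A i) (fun i => S.1.measurableSet_image.2 (hA i)) ε hε (fun j => D (f j)) (fun j => hDm _)
    (1 / ((p : ℝ) + 1)) (by positivity)
  let Q0 : PreAut (μ.prod ν) := ⟨S0, hS0.1⟩
  have hQ0e : cls Q0 ∈ Ext μ ν T := skew_mem μ ν T Q0 hskew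
  have hQ0O : cls Q0 ∈ O' := by
    apply hJO
    intro B hB
    have h1 := hclose (J.equivFin ⟨B, hB⟩)
    have h2 : A (J.equivFin ⟨B, hB⟩) = B := by
      show (J.equivFin.symm (J.equivFin ⟨B, hB⟩)).1 = B
      rw [Equiv.symm_apply_apply]
    rw [h2, img_pre (μ.prod ν) S.1 S0 S.2 hS0.1 B (hJ B hB)] at h1
    exact h1
  refine ⟨Subtype.val ⁻¹' (⋂ F ∈ J', ball (μ.prod ν) Q0 (S0 ⁻¹' F) δ'), ?_, ⟨⟨cls Q0, hQ0e⟩, hQ0O, ?_⟩, ?_⟩
  · refine IsOpen.preimage continuous_subtype_val (hJ'f.isOpen_biInter (fun F hF => ?_))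
    exact TopologicalSpace.isOpen_generateFrom_of_mem ⟨Q0, S0 ⁻¹' F, δ', S0.measurable (hJ'm F hF), hδ', rfl⟩
  · show cls Q0 ∈ ⋂ F ∈ J', ball (μ.prod ν) Q0 (S0 ⁻¹' F) δ'
    simp only [mem_iInter]
    intro F _
    rw [mem_ball_iff, symmDiff_self]
    simpa using hδ'
  · intro e' he'
    refine ⟨n0, fun S' hS' n hn => ?_⟩
    have h3 : cls S' ∈ ⋂ F ∈ J', ball (μ.prod ν) Q0 (S0 ⁻¹' F) δ' := by rw [hS']; exact he'
    simp only [mem_iInter] at h3
    refine hopen S'.1 (ext_isExt μ ν T S' (by rw [hS']; exact e'.2)) (fun F hF => ?_) n hn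
    have h4 := (mem_ball_iff _ _ _ _ _).1 (h3 F hF)
    rw [img_pre' (μ.prod ν) S0 S'.1 hS0.1 S'.2 F (hJ'm F hF)]
    exact h4.le

end Pool.Agent.Results.MP_4abfef_an.TypicalMultipleMixing
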